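import Pool.Agent.Helper65.HC.Goals
import Pool.Agent.Helper65.RT.Sim
import Pool.Agent.Helper28.Long.MLS

/-!
# Packet HC-LSW: the circuits of the simulation form a family computed in linear space
-/

namespace Pool.Agent.Helper94.HC

open Pool.Agent.Helper65.LinSpace Pool.Agent.Helper78.Mpc Pool.Agent.Helper28.Ram
open Pool.Agent.Helper65.HC Finset
open Pool.Agent.Helper59.Ram (LS_CR CM_le_CR pow_ll_le)
open Pool.Agent.Helper28.Long (pow_le_CR ZL ZL_le)
open Pool.Agent.Helper65.RT (qT CT ls_qT ls_CT ls_ll)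

variable {α : Type} [Ctx α]

theorem ls_ZL {n : α → ℕ} (hn : LS n) : LS (fun z => ZL (n z)) := by
  unfold ZL
  exact LS.div (LS.LW hn) (ls_ll (ls_ll hn))

theorem ls_sT {n T : α → ℕ} (hn : LS n) (hT : LS T) : LS (fun z => sT (n z) (T z)) := by
  unfold sT
  have hq := ls_qT hn
  exact LS.min (LS.div hT (LS.mul hq hq)) (LS.min (LS.sub hq (LS.const 1)) (ls_ZL hn))

theorem qT_pos (n : ℕ) : 1 ≤ qT n := Nat.le_add_left _ _

theorem qT_le (n : ℕ) : qT n ≤ n + 1 :=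
  Nat.add_le_add_right (Nat.div_le_self _ _) 1

theorem sT_le_q (n T : ℕ) : sT n T ≤ qT n - 1 :=
  (min_le_right _ _).trans (min_le_left _ _)

theorem sT_le (n T : ℕ) : sT n T ≤ n :=
  ((min_le_right _ _).trans (min_le_right _ _)).trans (ZL_le n)

theorem two_pow_le_CT (x t : ℕ) (h : t ≤ Nat.log 2 x + 1) : 2 ^ t ≤ CT x := by
  refine (Nat.pow_le_pow_right (by norm_num) (h.trans (by omega))).trans
    ((two_pow_log_le x 1).trans ?_)
  exact Nat.pow_le_pow_right (by omega) (by norm_num)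

theorem ok_machT (e x y T : ℕ) : (machT e x y T).Ok := by
  refine ⟨Nat.succ_pos _, ?_, ?_, ?_, ?_⟩
  · show 0 < qT (Nat.log 2 x) / (sT (Nat.log 2 x) T + 1)
    have h1 := qT_pos (Nat.log 2 x)
    have h2 := sT_le_q (Nat.log 2 x) T
    exact Nat.div_pos (by omega) (by omega)
  · show 1 < 2 ^ (sT (Nat.log 2 x) T + 1)
    exact Nat.one_lt_two_pow (by omega)
  · intro i j q v
    exact capN_lt _ _
  · intro i q
    exact capN_lt _ _

theorem sb_le (e x y T : ℕ) :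
    (machT e x y T).σ * (machT e x y T).B ≤ qT (Nat.log 2 x) :=
  Nat.mul_div_le (qT (Nat.log 2 x)) (sT (Nat.log 2 x) T + 1)

section

variable {e x y T : α → ℕ}

theorem ls_beta (hx : LS x) : LS (fun z => 2 ^ (2 * ll (Nat.log 2 (x z)))) := by
  have hn : LS (fun z => Nat.log 2 (x z)) := LS.log2 hx
  have hl : LS (fun z => 2 * ll (Nat.log 2 (x z))) := LS.mul (LS.const 2) (ls_ll hn)
  exact LS.pow_of_le (f := fun _ => 2) (LS.const 2) hl (LS_CR hx) fun z => pow_ll_le (x z)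

/-- The codes applied to words, in linear space. -/
theorem ls_fn {β : Type} [Ctx β] (hx : LS x) (hT : LS T) (π : β → α) (d : α → ℕ) (u : β → ℕ)
    (hπ : LS π) (hd : LS d) (hu : LS u) :
    LS (fun b => fnN (d (π b)) (sT (Nat.log 2 (x (π b))) (T (π b)))
      (LW (Nat.log 2 (x (π b)))) (2 ^ (2 * ll (Nat.log 2 (x (π b))))) (CR (x (π b)))
      (u b)) := by
  have hn : LS (fun z => Nat.log 2 (x z)) := LS.log2 hx
  have h1 : LS (fun b => d (π b)) := LS.comp (g := d) hd hπ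
  have h2 : LS (fun b => sT (Nat.log 2 (x (π b))) (T (π b))) :=
    LS.comp (g := fun z => sT (Nat.log 2 (x z)) (T z)) (ls_sT hn hT) hπ
  have h3 : LS (fun b => LW (Nat.log 2 (x (π b)))) :=
    LS.comp (g := fun z => LW (Nat.log 2 (x z))) (LS.LW hn) hπ
  have h4 : LS (fun b => 2 ^ (2 * ll (Nat.log 2 (x (π b))))) :=
    LS.comp (g := fun z => 2 ^ (2 * ll (Nat.log 2 (x z)))) (ls_beta hx) hπ
  have h5 : LS (fun b => CR (x (π b))) := LS.comp (g := fun z => CR (x z)) (LS_CR hx) hπ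
  refine LS.fnN h1 h2 h3 h4 h5 hu h5 (fun b => by positivity)
    (fun b => (beta_pow_le (x (π b))).trans (CM_le_CR (x (π b)))) (fun b => ?_)
  refine pow_le_CR ?_
  have h6 := sT_le (Nat.log 2 (x (π b))) (T (π b))
  omega

theorem ls_cap {β : Type} [Ctx β] (hx : LS x) (hT : LS T) (π : β → α) (u : β → ℕ)
    (hπ : LS π) (hu : LS u) :
    LS (fun b => capN (sT (Nat.log 2 (x (π b))) (T (π b))) (u b)) :=
  LS.capN (LS.comp (g := fun z => sT (Nat.log 2 (x z)) (T z)) (ls_sT (LS.log2 hx) hT) hπ) hu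

theorem ls_step (he : LS e) (hx : LS x) (hT : LS T) :
    LS (fun b : α × ℕ × ℕ × ℕ × ℕ => (prm (e b.1) (x b.1) (y b.1) (T b.1)).step b.2.1
      b.2.2.1 b.2.2.2.1 b.2.2.2.2) := by
  have hn' : LS (fun b : α × ℕ × ℕ × ℕ × ℕ => Nat.log 2 (x b.1)) :=
    LS.comp (g := fun z => Nat.log 2 (x z)) (LS.log2 hx) LS.fst
  have hu : LS (fun b : α × ℕ × ℕ × ℕ × ℕ => catN (sdN (bitsN (Nat.log 2 (x b.1))))
      (catN (sdN (bitsN b.2.1)) (catN (sdN (bitsN b.2.2.1))
        (catN (sdN b.2.2.2.1) b.2.2.2.2)))) := by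
    refine LS.catN (LS.sdN (LS.bitsN hn')) ?_
    fun_prop
  have heS : LS (fun z => (Nat.unpair (e z)).1) := by fun_prop
  have h1 := ls_fn hx hT (fun b : α × ℕ × ℕ × ℕ × ℕ => b.1) _ _ LS.fst heS hu
  have h2 : LS (fun b : α × ℕ × ℕ × ℕ × ℕ => b.2.2.2.1 * b.2.2.2.2) := by fun_prop
  have h3 := ls_cap hx hT (fun b : α × ℕ × ℕ × ℕ × ℕ => b.1) _ LS.fst
    (LS.ifz h2 (LS.const 0) h1)
  exact h3

theorem ls_out (he : LS e) (hx : LS x) (hy : LS y) (hT : LS T) :
    LS (fun b : α × ℕ × ℕ => (prm (e b.1) (x b.1) (y b.1) (T b.1)).out b.2.1 b.2.2) := by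
  have hn' : LS (fun b : α × ℕ × ℕ => Nat.log 2 (x b.1)) :=
    LS.comp (g := fun z => Nat.log 2 (x z)) (LS.log2 hx) LS.fst
  have hx' : LS (fun b : α × ℕ × ℕ => x b.1) := LS.comp (g := x) hx LS.fst
  have hy' : LS (fun b : α × ℕ × ℕ => y b.1) := LS.comp (g := y) hy LS.fst
  have h21 : LS (fun b : α × ℕ × ℕ => b.2.1) := by fun_prop
  have h22 : LS (fun b : α × ℕ × ℕ => b.2.2) := by fun_prop
  have hl : LS (fun b : α × ℕ × ℕ => letN (catN (x b.1) (y b.1)) b.2.1) :=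
    LS.letN (LS.catN hx' hy') h21
  have hu : LS (fun b : α × ℕ × ℕ => catN (sdN (bitsN (Nat.log 2 (x b.1))))
      (catN (sdN (bitsN b.2.1)) b.2.2)) :=
    LS.catN (LS.sdN (LS.bitsN hn')) (LS.catN (LS.sdN (LS.bitsN h21)) h22)
  have heO : LS (fun z => (Nat.unpair (e z)).2) := by fun_prop
  have h1 := ls_fn hx hT (fun b : α × ℕ × ℕ => b.1) _ _ LS.fst heO hu
  have h3 := ls_cap hx hT (fun b : α × ℕ × ℕ => b.1) _ LS.fst
    (LS.ifz hl (LS.ifz h22 (LS.const 0) h1) (LS.add (LS.const 2) (LS.mul (LS.const 2) hl)))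
  exact h3

end

theorem lsw : LSW_stmt := by
  intro α _ e x y T he hx hy hT
  refine ⟨?_, fun z => ⟨sb_le _ _ _ _, le_rfl⟩⟩
  have hn : LS (fun z => Nat.log 2 (x z)) := LS.log2 hx
  have hq : LS (fun z => qT (Nat.log 2 (x z))) := ls_qT hn
  have hS : LS (fun z => sT (Nat.log 2 (x z)) (T z)) := ls_sT hn hT
  exact
    { σ := LS.add hS (LS.const 1)
      B := LS.div hq (LS.add hS (LS.const 1))
      K := hq
      st := LS.const 1
      step := ls_step he hx hT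
      out := ls_out he hx hy hT
      bd := ls_CT hx
      ok := fun z => ok_machT _ _ _ _
      hC := fun z => two_pow_le_CT _ _ ((sb_le _ _ _ _).trans (qT_le _)) }

end Pool.Agent.Helper94.HC
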